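import Pool.Agent.Lib.MP_8daebb_an.Cases
import Pool.Agent.Lib.MP_8daebb_an.Setting

/-! Q1 for stationary surfaces (any codimension, any multiplicity) that are invariant near `x₀`
under a one-parameter group of rotations about `x₀` acting non-trivially on the tangent plane. -/

open MeasureTheory
open scoped RealInnerProductSpace
open Pool.Agent.Lib.MP_8daebb_an

theorem Pool.Agent.Variants.MP_8daebb_an.CircleSymmetry.result {E : Type}
    [NormedAddCommGroup E] [InnerProductSpace ℝ E] [FiniteDimensional ℝ E]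
    [MeasurableSpace E] [BorelSpace E]
    (U : Set E) (hU : IsOpen U) (V : Measure (E × (E →L[ℝ] E)))
    (hV : IsStationaryVarifold 2 U V)
    (h1 : ∀ᵐ x ∂V.fst, ∃ θ, 1 ≤ θ ∧ HasDensity 2 V.fst x θ)
    (x₀ : E) (hx₀ : x₀ ∈ U) (hx₀s : x₀ ∈ V.fst.support)
    (Q : ℝ) (hd : HasDensity 2 V.fst x₀ Q)
    (ι : EuclideanSpace ℝ (Fin 2) →ₗᵢ[ℝ] E) (ht : HasFlatTangent 2 V.fst x₀ Q ι)
    (hbad : DensityCondition 2 V.fst x₀ Q)
    (A : E →L[ℝ] E) (hA : ∀ x y, ⟪A x, y⟫ = -⟪x, A y⟫) (hA0 : ∃ p, A (ι p) ≠ 0)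
    (R : ℝ) (hR : 0 < R)
    (hinv : ∀ t : ℝ, InvariantNear V.fst x₀ R (NormedSpace.exp (t • A) : E →L[ℝ] E)) :
    SmoothGraphNear V.fst.support x₀ ι :=
  hV.regular_of_circle hU h1 hx₀ hx₀s hd ht hbad hA hA0 hR hinv
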