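import Pool.Agent.Lib.MP_8daebb_an.GM.EvReg

/-! Q1 for all stationary integral varifolds, in any dimension and any codimension. -/

open MeasureTheory
open Pool.Agent.Lib.MP_8daebb_an

theorem Pool.Agent.Variants.MP_8daebb_an.FlatTangentRegular.result {E : Type}
    [NormedAddCommGroup E] [InnerProductSpace ℝ E] [FiniteDimensional ℝ E]
    [MeasurableSpace E] [BorelSpace E] (m : ℕ) (hm : 1 ≤ m)
    (U : Set E) (hU : IsOpen U) (V : Measure (E × (E →L[ℝ] E)))
    (hV : IsStationaryVarifold m U V) (hi : SV.IsIntegral m V)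
    (x₀ : E) (hx₀ : x₀ ∈ U) (hx₀s : x₀ ∈ V.fst.support)
    (Q : ℝ) (hd : HasDensity m V.fst x₀ Q)
    (ι : EuclideanSpace ℝ (Fin m) →ₗᵢ[ℝ] E) (ht : HasFlatTangent m V.fst x₀ Q ι)
    (hbad : DensityCondition m V.fst x₀ Q) :
    SmoothGraphNear V.fst.support x₀ ι :=
  GM.regular_of_ev (GM.ev_regular hm) hV hU hi hx₀ hx₀s hd ht hbad
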