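import Pool.Agent.Lib.MP_8daebb_an.H16.Final

/-! Q1 for stationary surfaces (any codimension and density) whose top-density points lie on the
tangent plane and whose projected stress tensor has determinant at most `Q ^ 2` and does not
concentrate: the support is the tangent plane near `x₀`. Necks and holes are allowed. -/

open MeasureTheory Metric Filter Topology Set
open Pool.Agent.Lib.MP_8daebb_an

theorem Pool.Agent.Variants.MP_8daebb_an.NeckRigidity.result {E : Type}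
    [NormedAddCommGroup E] [InnerProductSpace ℝ E] [FiniteDimensional ℝ E]
    [MeasurableSpace E] [BorelSpace E]
    (U : Set E) (hU : IsOpen U) (V : Measure (E × (E →L[ℝ] E)))
    (hV : IsStationaryVarifold 2 U V)
    (h1 : ∀ᵐ x ∂V.fst, ∃ θ, 1 ≤ θ ∧ HasDensity 2 V.fst x θ)
    (x₀ : E) (hx₀ : x₀ ∈ U) (hx₀s : x₀ ∈ V.fst.support)
    (Q : ℝ) (hd : HasDensity 2 V.fst x₀ Q)
    (ι : EuclideanSpace ℝ (Fin 2) →ₗᵢ[ℝ] E) (ht : HasFlatTangent 2 V.fst x₀ Q ι)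
    (hbad : DensityCondition 2 V.fst x₀ Q)
    (hflat : ∃ r > 0, ∀ᵐ x ∂V.fst, x ∈ ball x₀ r → HasDensity 2 V.fst x Q →
      x ∈ range fun p => x₀ + ι p)
    (hs : ∃ᶠ R in 𝓝[>] 0, ∃ (M : EuclideanSpace ℝ (Fin 2) → Matrix (Fin 2) (Fin 2) ℝ)
      (O : ℕ → Set (EuclideanSpace ℝ (Fin 2))), IsProjectedStress V ι x₀ R M ∧
      (∀ᵐ p, (M p).det ≤ Q ^ 2) ∧
      (∀ i, IsOpen (O i) ∧ IsPreconnected (O i) ∧ O i ⊆ ball 0 R ∧
        ∀ᵐ p, p ∈ O i → (M p).trace = 0) ∧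
      ∀ p ∈ ball (0 : EuclideanSpace ℝ (Fin 2)) R,
        (∃ C, ∃ᶠ s in 𝓝[>] 0, ∫ q in ball p s, (M q).trace ≤ C * s ^ 2) ∨
        ((∀ η > 0, ∃ᶠ s in 𝓝[>] 0, ∫ q in ball p s, (M q).trace ≤ η * s) ∧
          ∃ i, p ∈ closure (O i))) :
    ∃ r > 0, V.fst.support ∩ ball x₀ r = (range fun p => x₀ + ι p) ∩ ball x₀ r :=
  H16.flat_of_stress' hU hV h1 hx₀ hx₀s hd ht hbad hflat hs
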