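import Pool.Agent.Lib.MP_8daebb_an.Cases
import Pool.Agent.Lib.MP_8daebb_an.Setting

/-! Q1 for stationary varifolds (any dimension, codimension and multiplicity) that are invariant
near `x₀` under rotations about `x₀` acting transitively on the spheres of the tangent plane. -/

open MeasureTheory
open scoped RealInnerProductSpace
open Pool.Agent.Lib.MP_8daebb_an

theorem Pool.Agent.Variants.MP_8daebb_an.TransitiveSymmetry.result {E : Type}
    [NormedAddCommGroup E] [InnerProductSpace ℝ E] [FiniteDimensional ℝ E]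
    [MeasurableSpace E] [BorelSpace E] (m : ℕ) (hm : 1 ≤ m)
    (U : Set E) (hU : IsOpen U) (V : Measure (E × (E →L[ℝ] E)))
    (hV : IsStationaryVarifold m U V)
    (h1 : ∀ᵐ x ∂V.fst, ∃ θ, 1 ≤ θ ∧ HasDensity m V.fst x θ)
    (x₀ : E) (hx₀ : x₀ ∈ U) (hx₀s : x₀ ∈ V.fst.support)
    (Q : ℝ) (hd : HasDensity m V.fst x₀ Q)
    (ι : EuclideanSpace ℝ (Fin m) →ₗᵢ[ℝ] E) (ht : HasFlatTangent m V.fst x₀ Q ι)
    (hbad : DensityCondition m V.fst x₀ Q)
    (G : Set (E ≃ₗᵢ[ℝ] E)) (R : ℝ) (hR : 0 < R)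
    (hinv : ∀ g ∈ G, InvariantNear V.fst x₀ R g)
    (htr : ∀ p q, ‖p‖ = ‖q‖ → ∃ g ∈ G, g (ι p) = ι q)
    (hfix : ∀ p, p ≠ 0 → ∀ w, (∀ q, ⟪w, ι q⟫ = 0) → (∀ g ∈ G, g (ι p) = ι p → g w = w) →
      ∀ g ∈ G, g w = w) :
    SmoothGraphNear V.fst.support x₀ ι :=
  hV.regular_of_transitive hU hm h1 hx₀ hx₀s hd ht hbad G hR hinv htr hfix
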